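import Pool.Agent.H84.S2.TgE
import Pool.Agent.H64.SC.Api
import Pool.Agent.H27.LV.Curve
import Pool.Agent.H35.SL.DRP
import Pool.Agent.H19.SFC.ORZ

/-!
# MP_70ba79_ag, THEOREM S, part 3: from `SfJ` to `SfD` (row E_ORD of `s2l_modules`)

Model: `Pool/Agent/H19/SFC/ORZ.lean`.
-/

set_option autoImplicit false

namespace Pool.Agent.H2.S2

open MvPolynomial SC
open Pool.Agent.H27.LV (ge deg poleOrder canDeg DegreeBound pfm pfi)
open Pool.Agent.H84.SM (cr dt dp)
open Pool.Agent.H84.SL (pd)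
open Pool.Agent.H92.SF (Q2)
open Pool.Agent.H3.SF (Itg Bb BB Hm eu grd hes Sfc Crd Cnn Crf Prm nv Vl VQ evc FE E)
open Pool.Agent.H84.SF
open Pool.Agent.H3.S2
open Pool.Agent.H84.S2

theorem aeval_lin {k A σ : Type} [Field k] [Field A] [Algebra k A] [Fintype σ] (c : Fin 3 → σ → k)
    (z : σ → A) (J : MvPolynomial (Fin 3) k) :
    aeval z (aeval (lin c (X : σ → MvPolynomial σ k)) J) = aeval (lin c z) J := by
  rw [comp_aeval_apply]
  congr 2
  funext l
  unfold lin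
  rw [map_sum]
  refine Finset.sum_congr rfl (fun s _ => ?_)
  rw [map_smul, aeval_X]

theorem hom_lin {k σ : Type} [Field k] [Fintype σ] (c : Fin 3 → σ → k)
    (J : MvPolynomial (Fin 3) k) (j : ℕ) (hJ : J.IsHomogeneous j) :
    (aeval (lin c (X : σ → MvPolynomial σ k)) J).IsHomogeneous (1 * j) := by
  refine hJ.aeval _ (fun l => ?_)
  unfold lin
  refine IsHomogeneous.sum _ _ _ (fun s _ => ?_)
  rw [smul_eq_C_mul]
  have := (isHomogeneous_C σ (c l s)).mul (isHomogeneous_X k s)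
  rwa [zero_add] at this

theorem pf_ORD (hNUJ : T_NUJ) : T_ORD := by
  classical
  intro k F σ _ _ _ _ _ _ X u θ dd J δ j0 c0 c hcone hSrD m GP sg SP hm hNc hSP hSPne hSfJ
  obtain ⟨B, N, Ψ, hΨ0, hΨ, h⟩ := hSfJ
  have hJu : aeval u J ≠ 0 := by
    intro h0
    exact hSrD.sfc.J0 ((injective_iff_map_eq_zero _).1 hSrD.sfc.ind J h0)
  have hulin : u = lin c X := by
    funext l; exact hSrD.lin l
  refine ⟨2 * B, 2 * B * m + 1, N + m + sg + 1 * j0,
    Ψ * GP * SP * aeval (lin c (MvPolynomial.X : σ → MvPolynomial σ k)) J, ?_, ?_, ?_⟩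
  · intro hmem
    rw [RingHom.mem_ker, map_mul, map_mul, map_mul, aeval_lin, ← hulin] at hmem
    refine mul_ne_zero (mul_ne_zero (mul_ne_zero ?_ hNc.ne) hSPne) hJu hmem
    intro h0
    exact hΨ0 ((RingHom.mem_ker).2 h0)
  · exact ((hΨ.mul hNc.hom).mul hSP).mul (hom_lin c J j0 hSrD.sfc.Jh)
  intro K _ _ _ htr D hD x S hC hΨ' hnc
  rw [map_mul, map_mul, map_mul, aeval_lin] at hΨ'
  have hJx : aeval (lin c x) J ≠ 0 := right_ne_zero_of_mul hΨ'
  have hSx : aeval x SP ≠ 0 := right_ne_zero_of_mul (left_ne_zero_of_mul hΨ')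
  have hΨx : aeval x Ψ ≠ 0 := left_ne_zero_of_mul (left_ne_zero_of_mul (left_ne_zero_of_mul hΨ'))
  have hnuj : ∀ v : DV k K, ∀ (e : ℕ) (h : MvPolynomial σ k), h.IsHomogeneous e →
      Van (RingHom.ker (aeval X : MvPolynomial σ k →ₐ[k] F)) GP SP h → aeval x h ≠ 0 →
      v.ord (aeval x h) = -(e * poleOrder v x) →
      v.ord (aeval x GP) + m * poleOrder v x ≤ v.ord (aeval x SP) + sg * poleOrder v x := by
    refine hNUJ k F σ K X u θ dd J δ j0 c0 c hcone hSrD m GP sg SP hm hNc hSP x ?_ hC.one hJx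
      hC.ne hSx
    intro f hf
    exact hC.on f ((RingHom.mem_ker).2 hf)
  obtain ⟨fG, sG⟩ := pfm k K htr (aeval x GP)
  have fP := pfi k K htr σ x
  obtain ⟨T, hT⟩ : ∃ T : Finset (DV k K), T = (fG.union fP).toFinset ∪ S := ⟨_, rfl⟩
  have hT' : ∀ v, v ∉ T → v.ord (aeval x GP) = 0 ∧ poleOrder v x = 0 := by
    intro v hv
    rw [hT, Finset.mem_union, Set.Finite.mem_toFinset] at hv
    push Not at hv
    obtain ⟨hv, -⟩ := hv
    simp only [Set.mem_union, Set.mem_ofPred_eq, not_or, not_not] at hv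
    exact ⟨hv.1, hv.2⟩
  have eG : ∑ v ∈ T, v.ord (aeval x GP) = 0 := by
    rw [← sG, finsum_eq_sum_of_support_subset]
    intro v hv
    by_contra hcon
    exact hv (hT' v hcon).1
  have eP : deg k x = ∑ v ∈ T, poleOrder v x := by
    unfold deg
    rw [finsum_eq_sum_of_support_subset]
    intro v hv
    by_contra hcon
    exact hv (hT' v hcon).2
  have hge : ∀ v : DV k K, 0 ≤ v.ord (aeval x GP) + m * poleOrder v x := by
    intro v
    have := Pool.Agent.H19.SFC.orz_ord_ge v x GP m hNc.hom hC.ne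
    omega
  have hsum : ∑ v ∈ T, (v.ord (aeval x GP) + m * (poleOrder v x : ℤ)) = m * (deg k x : ℤ) := by
    rw [Finset.sum_add_distrib, eG, eP, zero_add, ← Finset.mul_sum]
    push_cast
    rfl
  -- the additional places
  obtain ⟨S2, hS2⟩ : ∃ S2 : Finset (DV k K),
      S2 = T.filter (fun v => v ∉ S ∧ ((2 * B * m + 1 : ℕ) : ℤ) ≤
        v.ord (aeval x GP) + m * poleOrder v x) := ⟨_, rfl⟩
  have hS2m : ∀ v ∈ S2, ((2 * B * m + 1 : ℕ) : ℤ) ≤ v.ord (aeval x GP) + m * poleOrder v x := by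
    intro v hv
    rw [hS2, Finset.mem_filter] at hv
    exact hv.2.2
  have hcard : ((2 * B * m + 1 : ℕ) : ℤ) * S2.card ≤ m * (deg k x : ℤ) := by
    rw [← hsum]
    have h1 : ∑ v ∈ S2, (v.ord (aeval x GP) + m * (poleOrder v x : ℤ)) ≤
        ∑ v ∈ T, (v.ord (aeval x GP) + m * (poleOrder v x : ℤ)) := by
      refine Finset.sum_le_sum_of_subset_of_nonneg ?_ fun v _ _ => hge v
      rw [hS2]
      exact Finset.filter_subset _ _
    have h2 := Finset.card_nsmul_le_sum S2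
      (fun v => v.ord (aeval x GP) + m * (poleOrder v x : ℤ)) _ hS2m
    rw [nsmul_eq_mul, mul_comm] at h2
    exact h2.trans h1
  have hcrv : CrJ (RingHom.ker (aeval X : MvPolynomial σ k →ₐ[k] F)) GP m SP sg x (S ∪ S2) := by
    refine ⟨hC.on, hC.one, hC.ne, hSx, fun v hv => ?_⟩
    rw [Finset.mem_union, not_or] at hv
    rcases hC.off v hv.1 with ⟨e, f, hf1, hf2, hf3, hf4⟩ | h1
    · exact hnuj v e f hf1 hf2 hf3 hf4
    · exfalso
      have h2 : ((2 * B * m + 1 : ℕ) : ℤ) ≤ v.ord (aeval x GP) + m * poleOrder v x := by omega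
      by_cases hvT : v ∈ T
      · apply hv.2
        rw [hS2, Finset.mem_filter]
        exact ⟨hvT, hv.1, h2⟩
      · obtain ⟨h3, h4⟩ := hT' v hvT
        rw [h3, h4] at h2
        push_cast at h2
        have : (0 : ℤ) ≤ 2 * B * m := by positivity
        omega
  obtain ⟨-, hdeg⟩ := h K htr D hD x (S ∪ S2) hcrv hΨx hnc
  have hcu : (((S ∪ S2).card : ℕ) : ℤ) ≤ S.card + S2.card := by
    exact_mod_cast Finset.card_union_le S S2
  -- the degree is positive
  have hpole : ∃ v : DV k K, 1 ≤ poleOrder v x := by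
    obtain ⟨i, hi⟩ := hnc
    by_contra hcon
    push Not at hcon
    apply hi
    refine Pool.Agent.H35.SL.const_of htr fun v => ?_
    have h1 := hcon v
    have h2 : (-(v.ord (x i))).toNat ≤ poleOrder v x := by
      unfold poleOrder
      exact Finset.le_sup (f := fun i => (-(v.ord (x i))).toNat) (Finset.mem_univ i)
    right
    omega
  have hdeg1 : 1 ≤ deg k x := by
    obtain ⟨v, hv⟩ := hpole
    refine hv.trans ?_
    unfold deg
    exact single_le_finsum v fP fun _ => Nat.zero_le _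
  have hdeg1' : (1 : ℤ) ≤ deg k x := by exact_mod_cast hdeg1
  obtain ⟨χ, hχ⟩ : ∃ χ : ℤ, χ = canDeg D + S.card := ⟨_, rfl⟩
  obtain ⟨g, hg⟩ : ∃ g : ℤ, g = deg k x := ⟨_, rfl⟩
  obtain ⟨s, hs⟩ : ∃ s : ℤ, s = S2.card := ⟨_, rfl⟩
  obtain ⟨b, hb⟩ : ∃ b : ℤ, b = B := ⟨_, rfl⟩
  obtain ⟨e, he⟩ : ∃ e : ℤ, e = m := ⟨_, rfl⟩
  have hb0 : 0 ≤ b := by rw [hb]; exact Int.natCast_nonneg _
  have he0 : 0 ≤ e := by rw [he]; exact Int.natCast_nonneg _
  have h1 : g ≤ b * (χ + s) := by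
    rw [hg, hb, hχ, hs]
    refine hdeg.trans ?_
    refine mul_le_mul_of_nonneg_left ?_ (Int.natCast_nonneg _)
    linarith
  have h2 : (2 * b * e + 1) * s ≤ e * g := by
    rw [hg, hb, he, hs]
    have := hcard
    push_cast at this
    exact this
  have hg1 : 1 ≤ g := by rw [hg]; exact hdeg1'
  have hm0 : 0 < 2 * b * e + 1 := by positivity
  have h3 : (2 * b * e + 1) * g ≤ b * ((2 * b * e + 1) * χ) + b * (e * g) := by
    have h4 := mul_le_mul_of_nonneg_left h1 hm0.le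
    have h5 := mul_le_mul_of_nonneg_left h2 hb0
    have h6 : (2 * b * e + 1) * (b * (χ + s)) =
        b * ((2 * b * e + 1) * χ) + b * ((2 * b * e + 1) * s) := by ring
    rw [h6] at h4
    linarith
  have h7 : (2 * b * e + 1) * g ≤ (2 * b * e + 1) * (2 * b * χ) := by
    have h8 : (2 * b * e + 1) * (2 * b * χ) = 2 * (b * ((2 * b * e + 1) * χ)) := by ring
    have h9 : (2 * b * e + 1) * g = 2 * (b * (e * g)) + g := by ring
    rw [h8]
    linarith
  have h10 : g ≤ 2 * b * χ := le_of_mul_le_mul_left h7 hm0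
  have h11 : 1 ≤ χ := by
    by_contra hcon
    have h12 : χ ≤ 0 := by omega
    have h13 : 2 * b * χ ≤ 0 := mul_nonpos_of_nonneg_of_nonpos (by positivity) h12
    omega
  rw [← hχ, ← hg]
  refine ⟨h11, ?_⟩
  rw [hb] at h10
  push_cast
  exact h10

end Pool.Agent.H2.S2
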